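import Pool.Agent.Lib.MP_859dd5_ag.PP.E0
import Pool.Agent.Lib.MP_859dd5_ag.PP.M1

/-!
# Monomial subfields of families of products of Fermat curves
-/

namespace UnrG

universe u v w

open Finset
open scoped Classical

/-- The cyclic cover `W ^ N = D ∏ X_j ^ B_j (1 - X_j) ^ A_j` of the space with coordinates `t`, `X`, where
`D` is a nonzero element of `F(t)`. -/
structure CycProdD (N : ℕ) {F E : Type u} [Field F] [Field E] [Algebra F E] {r n : ℕ}
    (t : Fin r → E) (X : Fin n → E) (D W : E) (B A : Fin n → ZMod N) : Prop where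
  ind : AlgebraicIndependent F (Sum.elim t X)
  D_mem : D ∈ IntermediateField.adjoin F (Set.range t)
  D_ne : D ≠ 0
  eq : W ^ N = D * ∏ j, (X j ^ (B j).val * (1 - X j) ^ (A j).val)
  gen : IntermediateField.adjoin F (Set.range t ∪ Set.range X ∪ {W}) = ⊤

/-- Every curve either does not occur or has three nonzero exponents `B_j`, `A_j`, `-(B_j + A_j)`. -/
def IsNondegenerate {N n : ℕ} (B A : Fin n → ZMod N) : Prop :=
  ∀ j, (B j = 0 ∧ A j = 0) ∨ (B j ≠ 0 ∧ A j ≠ 0 ∧ B j + A j ≠ 0)

/-- For every nonzero class `c` mod `N`, as many of the exponents `B_j`, `A_j`, `-(B_j + A_j)` are equal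
to `c` up to a power of `p` as to `-c`. -/
def IsBalanced (p : ℕ) {N n : ℕ} (B A : Fin n → ZMod N) : Prop :=
  ∀ c : ZMod N, c ≠ 0 →
    Nat.card {i : Fin n × Fin 3 // ∃ s : ℕ, (p : ZMod N) ^ s * tripE (B i.1) (A i.1) i.2 = c} =
      Nat.card {i : Fin n × Fin 3 //
        ∃ s : ℕ, (p : ZMod N) ^ s * tripE (B i.1) (A i.1) i.2 = -c}

private lemma E0_cnt1 {p e N : ℕ} [Fact N.Prime] (he : 0 < e) (hpe : (p : ZMod N) ^ e = 1)
    {x c : ZMod N} (hc : c ≠ 0) :
    cnt1 p e x c = if ∃ s : ℕ, (p : ZMod N) ^ s * x = c then cnt1 p e (1 : ZMod N) 1 else 0 := by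
  split_ifs with h
  · obtain ⟨s, hs⟩ := h
    have hx : x ≠ 0 := by
      rintro rfl
      rw [mul_zero] at hs
      exact hc hs.symm
    have h1 : cnt1 p e x c = cnt1 p e ((p : ZMod N) ^ s * 1) ((p : ZMod N) ^ s) := by
      rw [cnt1_pow_mul he hpe]
      unfold cnt1
      congr 1
      refine Finset.filter_congr fun j _ => ?_
      rw [← hs, mul_one]
      exact ⟨fun h => mul_right_cancel₀ hx h, fun h => by rw [h]⟩
    have hp : (p : ZMod N) ^ s ≠ 0 := by
      intro h0
      rw [h0, zero_mul] at hs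
      exact hc hs.symm
    rw [h1]
    unfold cnt1
    congr 1
    refine Finset.filter_congr fun j _ => ?_
    rw [mul_one, mul_one]
    exact ⟨fun h => mul_right_cancel₀ hp (h.trans (one_mul _).symm), fun h => by rw [h, one_mul]⟩
  · unfold cnt1
    rw [Finset.card_eq_zero, Finset.filter_eq_empty_iff]
    intro j _ hj
    exact h ⟨j, hj⟩

private lemma E0_cnt {p e N : ℕ} [Fact N.Prime] (he : 0 < e) (hpe : (p : ZMod N) ^ e = 1)
    {n : ℕ} (B A : Fin n → ZMod N) {c : ZMod N} (hc : c ≠ 0) :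
    cnt p e (∑ j, Multiset.map (tripE (B j) (A j)) Finset.univ.val) c =
      Nat.card {i : Fin n × Fin 3 // ∃ s : ℕ, (p : ZMod N) ^ s * tripE (B i.1) (A i.1) i.2 = c} *
        cnt1 p e (1 : ZMod N) 1 := by
  have h1 : ∀ (s : Finset (Fin n)),
      cnt p e (∑ j ∈ s, Multiset.map (tripE (B j) (A j)) Finset.univ.val) c =
        ∑ j ∈ s, ∑ i, cnt1 p e (tripE (B j) (A j) i) c := by
    intro s
    induction s using Finset.induction_on with
    | empty => rfl
    | insert a s ha ih =>
      rw [Finset.sum_insert ha, cnt_add, ih, Finset.sum_insert ha]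
      congr 1
  rw [h1, Nat.card_eq_fintype_card, Fintype.card_subtype, Finset.card_filter, Finset.sum_mul,
    Fintype.sum_prod_type]
  refine Finset.sum_congr rfl fun j _ => Finset.sum_congr rfl fun i _ => ?_
  rw [E0_cnt1 he hpe hc, ite_mul, one_mul, zero_mul]

/-- The two notions of balanced exponents agree. -/
theorem bal_iff_isBalanced {p e N : ℕ} [Fact N.Prime] (he : 0 < e) (hpe : (p : ZMod N) ^ e = 1)
    {n : ℕ} (B A : Fin n → ZMod N) :
    Bal p e (∑ j, Multiset.map (tripE (B j) (A j)) Finset.univ.val) ↔ IsBalanced p B A := by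
  have hpos := cnt1_self_pos (p := p) he (1 : ZMod N)
  constructor
  · intro h c hc
    have h1 := h c
    rw [E0_cnt he hpe B A hc, E0_cnt he hpe B A (neg_ne_zero.2 hc)] at h1
    exact (Nat.eq_of_mul_eq_mul_right hpos h1).symm
  · intro h c
    by_cases hc : c = 0
    · rw [hc, neg_zero]
    · rw [E0_cnt he hpe B A hc, E0_cnt he hpe B A (neg_ne_zero.2 hc), h c hc]

end UnrG
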