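import Pool.Agent.Lib.MP_859dd5_ag.PQ.D3

/-!
# Families of products of Fermat curves: exponents not killed by the automorphisms
-/

namespace UnrG

universe u v w

open Polynomial Finset
open scoped Classical

variable {m : ℕ} {𝔽 : Type w} [Field 𝔽] [Fintype 𝔽] (b : Base 𝔽)

/-- The automorphisms over the monomial subfield are those fixing the monomial. -/
theorem sum_fieldG_inner {F M : Type u} [Field F] [Field M] [Algebra F M]
    {r n : ℕ} {t : Fin r → M} {x y : Fin n → M} (ξ : KM m M)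
    [Fintype (M ≃ₐ[fieldX b F t x] M)] (B A : Fin n → ZMod b.N)
    [Fintype (M ≃ₐ[fieldG b F t x y B A] M)] :
    ∑ g : M ≃ₐ[fieldG b F t x y B A] M, KM.map m (g : M →+* M) ξ =
      ∑ g ∈ univ.filter (fun g : M ≃ₐ[fieldX b F t x] M =>
        g (mono x y (fun j => (B j).val) (fun j => (A j).val)) =
          mono x y (fun j => (B j).val) (fun j => (A j).val)),
        KM.map m (g : M →+* M) ξ := by
  have hle : fieldX b F t x ≤ fieldG b F t x y B A :=
    IntermediateField.adjoin.mono _ _ _ Set.subset_union_left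
  let _ : Algebra (fieldX b F t x) (fieldG b F t x y B A) :=
    (IntermediateField.inclusion hle).toRingHom.toAlgebra
  have : IsScalarTower (fieldX b F t x) (fieldG b F t x y B A) M :=
    IsScalarTower.of_algebraMap_eq fun x => rfl
  have hYm : mono x y (fun j => (B j).val) (fun j => (A j).val) ∈ fieldG b F t x y B A :=
    IntermediateField.subset_adjoin F _ (Or.inr rfl)
  refine Finset.sum_bij (fun g _ => g.restrictScalars (fieldX b F t x)) ?_ ?_ ?_ ?_
  · intro g _
    rw [mem_filter]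
    exact ⟨mem_univ _, g.commutes ⟨_, hYm⟩⟩
  · intro g _ g' _ h3
    refine AlgEquiv.ext fun x => ?_
    exact DFunLike.congr_fun h3 x
  · intro g hg
    rw [mem_filter] at hg
    obtain ⟨S, hS⟩ : ∃ S : IntermediateField F M, ∀ x, x ∈ S ↔ g x = x :=
      ⟨{ carrier := {x | g x = x}
         mul_mem' := fun {x y} hx hy => by
           change g (x * y) = x * y
           rw [map_mul, show g x = x from hx, show g y = y from hy]
         add_mem' := fun {x y} hx hy => by
           change g (x + y) = x + y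
           rw [map_add, show g x = x from hx, show g y = y from hy]
         algebraMap_mem' := fun c => g.commutes (algebraMap F (fieldX b F t x) c)
         inv_mem' := fun x hx => by
           change g x⁻¹ = x⁻¹
           rw [map_inv₀, show g x = x from hx] }, fun x => Iff.rfl⟩
    have hS' : fieldG b F t x y B A ≤ S := by
      unfold fieldG
      rw [IntermediateField.adjoin_le_iff]
      rintro z (hz | hz)
      · exact (hS z).2 (g.commutes ⟨z, IntermediateField.subset_adjoin F _ hz⟩)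
      · rw [Set.mem_singleton_iff] at hz
        rw [hz]
        exact (hS _).2 hg.2
    refine ⟨{ (g : M ≃+* M) with commutes' := fun x => (hS _).mp (hS' x.2) }, mem_univ _, ?_⟩
    exact AlgEquiv.ext fun x => rfl
  · intro g _
    rfl

private lemma D3b_pow_congr {M : Type u} [Field M] {ζ : M} {N : ℕ} (hζ : ζ ^ N = 1) {i j : ℕ}
    (h : (i : ZMod N) = j) : ζ ^ i = ζ ^ j := by
  have h1 : i % N = j % N := (ZMod.natCast_eq_natCast_iff _ _ _).1 h
  rw [← Nat.mod_add_div i N, ← Nat.mod_add_div j N, pow_add, pow_add, pow_mul, pow_mul, hζ,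
    one_pow, one_pow, h1]

private lemma D3b_sum {F M : Type u} [Field F] [Field M] [Algebra F M]
    {T : IntermediateField F M} [Fintype (M ≃ₐ[T] M)] (g₀ : M ≃ₐ[T] M) (ξ : KM m M)
    (hξ : KM.map m (g₀ : M →+* M) ξ = ξ) (Y : M) (n : ℕ)
    (hone : ∀ g : M ≃ₐ[T] M, ((range n).filter fun i => (g * g₀ ^ i) Y = Y).card = 1) :
    ∑ g : M ≃ₐ[T] M, KM.map m (g : M →+* M) ξ =
      n • ∑ g ∈ univ.filter (fun g : M ≃ₐ[T] M => g Y = Y), KM.map m (g : M →+* M) ξ := by
  have hg₀ξ : ∀ i : ℕ, KM.map m ((g₀ ^ i : M ≃ₐ[T] M) : M →+* M) ξ = ξ := by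
    intro i
    induction i with
    | zero =>
      have h5 : ((g₀ ^ 0 : M ≃ₐ[T] M) : M →+* M) = RingHom.id M := rfl
      rw [h5, KM.map_id]
      rfl
    | succ i ih =>
      have h5 : ((g₀ ^ (i + 1) : M ≃ₐ[T] M) : M →+* M) =
          ((g₀ ^ i : M ≃ₐ[T] M) : M →+* M).comp (g₀ : M →+* M) := by
        ext z
        rw [pow_succ]
        rfl
      rw [h5, ← KM.map_map, hξ, ih]
  calc ∑ g : M ≃ₐ[T] M, KM.map m (g : M →+* M) ξ =
      ∑ g : M ≃ₐ[T] M, ∑ _i ∈ (range n).filter fun i => (g * g₀ ^ i) Y = Y,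
        KM.map m (g : M →+* M) ξ := by
        refine Finset.sum_congr rfl fun g _ => ?_
        rw [Finset.sum_const, hone g, one_nsmul]
    _ = ∑ i ∈ range n, ∑ g ∈ univ.filter (fun g : M ≃ₐ[T] M =>
        (g * g₀ ^ i) Y = Y), KM.map m (g : M →+* M) ξ := by
        refine Finset.sum_comm' fun g i => ?_
        simp only [mem_filter, mem_univ, true_and, and_comm]
    _ = ∑ _i ∈ range n, ∑ g ∈ univ.filter (fun g : M ≃ₐ[T] M => g Y = Y),
        KM.map m (g : M →+* M) ξ := by
        refine Finset.sum_congr rfl fun i _ => ?_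
        refine Finset.sum_bij (fun g _ => g * g₀ ^ i) ?_ ?_ ?_ ?_
        · intro g hg
          rw [mem_filter] at hg ⊢
          exact ⟨mem_univ _, hg.2⟩
        · intro g _ g' _ h3
          exact mul_right_cancel h3
        · intro g hg
          rw [mem_filter] at hg
          refine ⟨g * (g₀ ^ i)⁻¹, ?_, by rw [inv_mul_cancel_right]⟩
          rw [mem_filter, inv_mul_cancel_right]
          exact ⟨mem_univ _, hg.2⟩
        · intro g _
          have h5 : ((g * g₀ ^ i : M ≃ₐ[T] M) : M →+* M) =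
              (g : M →+* M).comp ((g₀ ^ i : M ≃ₐ[T] M) : M →+* M) := rfl
          rw [h5, ← KM.map_map, hg₀ξ]
    _ = _ := by
        rw [Finset.sum_const, card_range]

private lemma D3b_exists {F M : Type u} [Field F] [Field M] [Algebra F M]
    {T : IntermediateField F M} [FiniteDimensional T M] {f : M →+* M}
    (hf : ∀ z ∈ T, f z = z) : ∃ g₀ : M ≃ₐ[T] M, ∀ z, g₀ z = f z := by
  obtain ⟨φ, hφ⟩ : ∃ φ : M →ₐ[T] M, ∀ z, φ z = f z :=
    ⟨{ f with commutes' := fun z => hf _ z.2 }, fun z => rfl⟩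
  exact ⟨AlgEquiv.ofBijective φ (Algebra.IsAlgebraic.algHom_bijective φ), fun z => hφ z⟩

private lemma D3b_pow {F M : Type u} [Field F] [Field M] [Algebra F M]
    {T : IntermediateField F M} {g g₀ : M ≃ₐ[T] M} {ζ x : M} (hζ : ∀ g : M ≃ₐ[T] M, g ζ = ζ)
    {a a' : ℕ} (h0 : g₀ x = ζ ^ a * x) (h1 : g x = ζ ^ a' * x) (i : ℕ) :
    (g * g₀ ^ i) x = ζ ^ (a' + i * a) * x := by
  have h2 : (g₀ ^ i) x = ζ ^ (i * a) * x := by
    induction i with
    | zero =>
      rw [zero_mul, pow_zero, pow_zero, one_mul]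
      rfl
    | succ i ih =>
      rw [pow_succ, AlgEquiv.mul_apply, h0, map_mul, map_pow, hζ, ih, ← mul_assoc, ← pow_add]
      congr 2
      ring
  rw [AlgEquiv.mul_apply, h2, map_mul, map_pow, hζ, h1, ← mul_assoc, ← pow_add]
  congr 2
  ring

private lemma D3b_fixed {F M : Type u} [Field F] [Field M] [Algebra F M]
    {f : M →+* M} (hf : ∀ z : F, f (algebraMap F M z) = algebraMap F M z) :
    ∃ S : IntermediateField F M, ∀ x, x ∈ S ↔ f x = x :=
  ⟨{ carrier := {x | f x = x}
     mul_mem' := fun {x y} hx hy => by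
       change f (x * y) = x * y
       rw [map_mul, show f x = x from hx, show f y = y from hy]
     add_mem' := fun {x y} hx hy => by
       change f (x + y) = x + y
       rw [map_add, show f x = x from hx, show f y = y from hy]
     algebraMap_mem' := fun c => hf c
     inv_mem' := fun x hx => by
       change f x⁻¹ = x⁻¹
       rw [map_inv₀, show f x = x from hx] }, fun x => Iff.rfl⟩

private lemma D3b_card {N : ℕ} [Fact N.Prime] {k s : ZMod N} (hne : s ≠ 0) {P : ℕ → Prop}
    (h : ∀ i, P i ↔ k + i * s = 0) : ((range N).filter P).card = 1 := by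
  rw [Finset.card_eq_one]
  refine ⟨(-k / s).val, ?_⟩
  ext i
  rw [mem_filter, mem_range, mem_singleton, h]
  constructor
  · rintro ⟨hi, hi'⟩
    have h6 : (i : ZMod N) = -k / s := by
      rw [eq_div_iff hne]
      linear_combination hi'
    rw [← h6, ZMod.val_natCast, Nat.mod_eq_of_lt hi]
  · rintro rfl
    refine ⟨ZMod.val_lt _, ?_⟩
    rw [ZMod.natCast_zmod_val, div_mul_cancel₀ _ hne]
    ring

/-- If a diagonal automorphism fixing the class acts nontrivially on the monomial, then the sum of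
the conjugates over the monomial subfield is determined by the sum of all conjugates. -/
theorem IsFermatFamily.sum_irrelevant (hN : b.N.Prime) {F M : Type u} [Field F] [Field M]
    [Algebra F M] {r n : ℕ} {t : Fin r → M} {u v x y : Fin n → M}
    (h : IsFermatFamily b.N (F := F) t u v x y) (ι : 𝔽 →+* F)
    (ξ : KM m M) [Fintype (M ≃ₐ[fieldX b F t x] M)] (B A : Fin n → ZMod b.N)
    [Fintype (M ≃ₐ[fieldG b F t x y B A] M)] {a c : Fin n → ZMod b.N} {f : M →+* M}
    (hf : ∀ z : F, f (algebraMap F M z) = algebraMap F M z) (hft : ∀ i, f (t i) = t i)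
    (hfx : ∀ j, f (x j) = algebraMap F M (ι b.ζ) ^ (a j).val * x j)
    (hfy : ∀ j, f (y j) = algebraMap F M (ι b.ζ) ^ (c j).val * y j)
    (hfξ : KM.map m f ξ = ξ) (hne : ∑ j, (B j * a j + A j * c j) ≠ 0) :
    ∑ g : M ≃ₐ[fieldX b F t x] M, KM.map m (g : M →+* M) ξ =
      b.N • ∑ g : M ≃ₐ[fieldG b F t x y B A] M, KM.map m (g : M →+* M) ξ := by
  have hNp : Fact b.N.Prime := ⟨hN⟩
  have hζp : IsPrimitiveRoot (algebraMap F M (ι b.ζ)) b.N :=
    b.hζ_map ((algebraMap F M).comp ι)
  have hζ := hζp.pow_eq_one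
  obtain ⟨ζ, hζdef⟩ : ∃ ζ, ζ = algebraMap F M (ι b.ζ) := ⟨_, rfl⟩
  rw [← hζdef] at hζ
  rw [← hζdef] at hfx hfy
  -- the automorphism over `fieldX`
  obtain ⟨hfd, hgal, -⟩ := h.galois b ι (fieldX b F t x) le_rfl
  obtain ⟨S, hS⟩ := D3b_fixed hf
  have hXS : fieldX b F t x ≤ S := by
    unfold fieldX
    rw [IntermediateField.adjoin_le_iff]
    rintro z (⟨i, rfl⟩ | ⟨j, rfl⟩)
    · exact (hS _).2 (hft i)
    · refine (hS _).2 ?_
      change f (x j ^ b.N) = x j ^ b.N
      rw [map_pow, hfx, mul_pow, ← pow_mul, mul_comm (a j).val, pow_mul, hζ, one_pow, one_mul]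
  obtain ⟨g₀, hg₀⟩ := D3b_exists (T := fieldX b F t x) (f := f) (fun z hz => (hS z).1 (hXS hz))
  have hg₀f : (g₀ : M →+* M) = f := RingHom.ext hg₀
  have hFfix : ∀ (g : M ≃ₐ[fieldX b F t x] M), g ζ = ζ := by
    intro g
    rw [hζdef]
    exact g.commutes ((algebraMap F (fieldX b F t x)) (ι b.ζ))
  obtain ⟨Y, hY⟩ : ∃ Y, Y = mono x y (fun j => (B j).val) (fun j => (A j).val) := ⟨_, rfl⟩
  have hone : ∀ g : M ≃ₐ[fieldX b F t x] M,
      ((range b.N).filter fun i => (g * g₀ ^ i) Y = Y).card = 1 := by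
    intro g
    obtain ⟨a', c', ha', hc'⟩ := h.exists_exp b ι g
    rw [← hζdef] at ha' hc'
    refine D3b_card (k := ∑ j, (B j * a' j + A j * c' j)) (s := ∑ j, (B j * a j + A j * c j))
      hne fun i => ?_
    rw [hY]
    have e1 : ∀ j, ((g * g₀ ^ i : M ≃ₐ[fieldX b F t x] M) : M →+* M) (x j) =
        algebraMap F M (ι b.ζ) ^ (a' j + (i : ZMod b.N) * a j).val * x j := by
      intro j
      have h1 := D3b_pow hFfix ((hg₀ (x j)).trans (hfx j)) (ha' j) i
      refine h1.trans ?_
      rw [← hζdef]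
      congr 1
      apply D3b_pow_congr hζ
      push_cast
      rw [ZMod.natCast_zmod_val, ZMod.natCast_zmod_val, ZMod.natCast_zmod_val]
    have e2 : ∀ j, ((g * g₀ ^ i : M ≃ₐ[fieldX b F t x] M) : M →+* M) (y j) =
        algebraMap F M (ι b.ζ) ^ (c' j + (i : ZMod b.N) * c j).val * y j := by
      intro j
      have h1 := D3b_pow hFfix ((hg₀ (y j)).trans (hfy j)) (hc' j) i
      refine h1.trans ?_
      rw [← hζdef]
      congr 1
      apply D3b_pow_congr hζ
      push_cast
      rw [ZMod.natCast_zmod_val, ZMod.natCast_zmod_val, ZMod.natCast_zmod_val]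
    have e3 := IsFermatFamily.fix_mono_iff b h ι
      (g := ((g * g₀ ^ i : M ≃ₐ[fieldX b F t x] M) : M →+* M))
      (a := fun j => a' j + (i : ZMod b.N) * a j) (c := fun j => c' j + (i : ZMod b.N) * c j)
      e1 e2 B A
    have e4 : ∑ j, (B j * (a' j + (i : ZMod b.N) * a j) + A j * (c' j + (i : ZMod b.N) * c j)) =
        ∑ j, (B j * a' j + A j * c' j) + i * ∑ j, (B j * a j + A j * c j) := by
      rw [Finset.mul_sum, ← Finset.sum_add_distrib]
      exact Finset.sum_congr rfl fun j _ => by ring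
    rw [e4] at e3
    exact e3
  have h8 : KM.map m (g₀ : M →+* M) ξ = ξ := by rw [hg₀f, hfξ]
  have h9 := D3b_sum g₀ ξ h8 Y b.N hone
  have h10 := sum_fieldG_inner (F := F) (t := t) (x := x) (y := y) b ξ B A
  rw [h9, h10, ← hY]

end UnrG
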