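import Pool.Agent.Lib.MP_859dd5_ag.PQ.D3b
import Pool.Agent.Lib.MP_859dd5_ag.Mg.G076

/-!
# Families of products of Fermat curves of prime degree: reduced Milnor K-ring
-/

namespace UnrG

universe u v w

open Polynomial Finset
open scoped Classical

/-- **Main theorem for families of products of Fermat curves**, reduced Milnor K-ring. -/
theorem family_reduced_all {𝔽 : Type} [Field 𝔽] [Fintype 𝔽] (b : Base 𝔽) (hN : b.N.Prime)
    {p : ℕ} [Fact p.Prime] [CharP 𝔽 p] (n : ℕ) :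
    ∃ E S : ℕ, 0 < E ∧ 0 < S ∧ ∀ (m : ℕ) (F M : Type u) [Field F] [FixSp F p S] [CharP F p] [Field M]
      [Algebra F M] (_ : ∀ a : F, a ≠ 0 → ∃ n > 0, a ^ n = 1) (ι : 𝔽 →+* F) (r : ℕ)
      (t : Fin r → M) (u v x y : Fin n → M) (_ : IsFermatFamily b.N (F := F) t u v x y)
      (σ : M →+* M) (_ : ProdFrob b.q F t x y σ) (_ : ∀ j, σ (u j) = u j)
      (_ : ∀ j, σ (v j) = v j) (ξ : KM m M) (_ : Unr ξ)
      (_ : ξ ∈ KM.deg m M 3) (_ : KM.map m σ ξ = b.q • ξ)
      (P : Set ((Fin n → ZMod b.N) × (Fin n → ZMod b.N)))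
      (_ : ∀ h ∈ P, ∃ f : M →+* M, (∀ z : F, f (algebraMap F M z) = algebraMap F M z) ∧
        (∀ i, f (t i) = t i) ∧ (∀ j, f (x j) = algebraMap F M (ι b.ζ) ^ (h.1 j).val * x j) ∧
        (∀ j, f (y j) = algebraMap F M (ι b.ζ) ^ (h.2 j).val * y j) ∧ KM.map m f ξ = ξ)
      (_ : ∀ B A : Fin n → ZMod b.N, IsNondegenerate B A →
        (¬ IsBalanced p B A ∨ ∀ i j, B i ≠ 0 → B j ≠ 0 → i = j) →
        (∀ h ∈ P, ∑ j, (B j * h.1 j + A j * h.2 j) = 0) →
        ∃ β ∈ IntermediateField.adjoin F (Set.range t), σ β = β ∧ famD u v B A = β ^ b.N),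
      E • ξ = 0 := by
  have : Fact b.N.Prime := ⟨hN⟩
  choose C S hC0 hS0 hC using fun γ : (Fin n → ZMod b.N) × (Fin n → ZMod b.N) =>
    CycProdD.kills_all.{u} b hN (p := p) γ.1 γ.2
  have hN1 : 0 < b.N - 1 := by
    have := hN.two_le
    omega
  obtain ⟨E₁, hE₁⟩ : ∃ E₁, E₁ = (b.N ^ (2 * n)).factorial * ∏ γ, C γ := ⟨_, rfl⟩
  have hE₁0 : 0 < E₁ := by
    rw [hE₁]
    exact Nat.mul_pos (Nat.factorial_pos _) (Finset.prod_pos fun γ _ => hC0 γ)
  refine ⟨b.N ^ (2 * n) * (b.N - 1) * (b.N * E₁), ∏ γ, S γ, Nat.mul_pos (Nat.mul_pos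
    (pow_pos b.N_pos _) hN1) (Nat.mul_pos b.N_pos hE₁0),
    Finset.prod_pos fun γ _ => hS0 γ, ?_⟩
  intro m F M _ _ _ _ _ hF ι r t u v x y h σ hσ hσu hσv ξ hξ hd hq P hP hβ
  have hle : ∀ B A : Fin n → ZMod b.N, fieldX b F t x ≤ fieldG b F t x y B A := fun B A =>
    IntermediateField.adjoin.mono _ _ _ Set.subset_union_left
  have hfdX : FiniteDimensional (fieldX b F t x) M := (h.galois b ι _ le_rfl).1
  have hfdG : ∀ B A : Fin n → ZMod b.N, FiniteDimensional (fieldG b F t x y B A) M :=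
    fun B A => (h.galois b ι _ (hle B A)).1
  -- the exponents killed by `P`, and the zero exponents
  have keyR : ∀ γ : (Fin n → ZMod b.N) × (Fin n → ZMod b.N),
      ((∀ h ∈ P, ∑ j, (γ.1 j * h.1 j + γ.2 j * h.2 j) = 0) ∨ (γ.1 = 0 ∧ γ.2 = 0)) →
      E₁ • ∑ g : M ≃ₐ[fieldG b F t x y γ.1 γ.2] M, KM.map m (g : M →+* M) ξ = 0 := by
    intro γ hγ
    obtain ⟨hfd, hgal, hfin⟩ := h.galois b ι _ (hle γ.1 γ.2)
    obtain ⟨t', X', D', W', ht, hX, hD, hW, hcyc⟩ := h.cycProd b γ.1 γ.2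
    obtain ⟨σ', hσ'⟩ := hσ.exists_restrict b γ.1 γ.2
    have hfrob : CycFrob b.q F t' X' W' σ' := by
      refine ⟨fun a => ?_, fun i => ?_, fun j => ?_, ?_⟩
      · apply Subtype.ext
        rw [hσ']
        exact hσ.const a
      · apply Subtype.ext
        rw [hσ', ht, hσ.ft]
      · apply Subtype.ext
        rw [hσ', hX, map_mul, map_pow, hσ.fx, hσu]
      · apply Subtype.ext
        rw [hσ', hW]
        unfold mono
        rw [map_prod]
        refine Finset.prod_congr rfl fun j _ => ?_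
        rw [map_mul, map_pow, map_pow, hσ.fx, hσ.fy]
    have htr : Subtype.val '' (Set.range t') = Set.range t := by
      rw [← Set.range_comp]
      congr 1
      exact funext ht
    have hβ' : IsNondegenerate γ.1 γ.2 →
        (¬ IsBalanced p γ.1 γ.2 ∨ ∀ i j, γ.1 i ≠ 0 → γ.1 j ≠ 0 → i = j) →
        ∃ β ∈ IntermediateField.adjoin F (Set.range t'), σ' β = β ∧ D' = β ^ b.N := by
      intro hnd hb
      obtain ⟨β, hβm, hσβ, hDβ⟩ : ∃ β ∈ IntermediateField.adjoin F (Set.range t),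
          σ β = β ∧ famD u v γ.1 γ.2 = β ^ b.N := by
        by_cases h0 : γ.1 = 0 ∧ γ.2 = 0
        · refine ⟨1, one_mem _, map_one _, ?_⟩
          rw [h0.1, h0.2, one_pow]
          unfold famD
          simp
        · exact hβ γ.1 γ.2 hnd hb (hγ.resolve_right h0)
      have hβT : β ∈ fieldG b F t x y γ.1 γ.2 := by
        refine (IntermediateField.adjoin.mono F _ _ ?_) hβm
        exact Set.subset_union_left.trans Set.subset_union_left
      refine ⟨⟨β, hβT⟩, ?_, ?_, ?_⟩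
      · rw [← IntermediateField.mem_lift, IntermediateField.lift_adjoin, htr]
        exact hβm
      · apply Subtype.ext
        rw [hσ']
        exact hσβ
      · apply Subtype.ext
        rw [hD, hDβ]
        rfl
    have hSγ : FixSp F p (S γ) := FixSp.of_dvd F Fact.out
      (Finset.prod_pos fun γ _ => hS0 γ) (Finset.dvd_prod_of_mem S (Finset.mem_univ γ))
      inferInstance
    have hk := hC γ F (fieldG b F t x y γ.1 γ.2) hF ι r t' X' D' W' hcyc σ' hfrob hβ'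
    have h1 := galSum_kills (fieldG b F t x y γ.1 γ.2) hσ' (h.comm b ι hσ (hle _ _)) hk hξ hd hq
    have h2 : C γ * Module.finrank (fieldG b F t x y γ.1 γ.2) M ∣ E₁ := by
      rw [hE₁, mul_comm]
      exact mul_dvd_mul (Nat.dvd_factorial Module.finrank_pos hfin)
        (Finset.dvd_prod_of_mem C (Finset.mem_univ γ))
    obtain ⟨k, hk'⟩ := h2
    rw [hk', mul_comm, mul_nsmul', h1, nsmul_zero]
  have hX0 : fieldX b F t x = fieldG b F t x y 0 0 := by
    refine le_antisymm (hle 0 0) ?_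
    unfold fieldG
    rw [IntermediateField.adjoin_le_iff]
    rintro z (hz | hz)
    · exact IntermediateField.subset_adjoin _ _ hz
    · rw [Set.mem_singleton_iff] at hz
      have h1 : z = 1 := by
        rw [hz]
        unfold mono
        refine Finset.prod_eq_one fun j _ => ?_
        simp
      rw [h1]
      exact one_mem _
  have hcongr : ∀ (T₁ T₂ : IntermediateField F M) (_ : T₁ = T₂) [Fintype (M ≃ₐ[T₁] M)]
      [Fintype (M ≃ₐ[T₂] M)], ∑ g : M ≃ₐ[T₁] M, KM.map m (g : M →+* M) ξ =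
        ∑ g : M ≃ₐ[T₂] M, KM.map m (g : M →+* M) ξ := by
    rintro T₁ T₂ rfl i₁ i₂
    have h1 : i₁ = i₂ := Subsingleton.elim _ _
    subst h1
    rfl
  have hXk : E₁ • ∑ g : M ≃ₐ[fieldX b F t x] M, KM.map m (g : M →+* M) ξ = 0 := by
    rw [hcongr _ _ hX0]
    exact keyR (0, 0) (Or.inr ⟨rfl, rfl⟩)
  have key : ∀ γ : (Fin n → ZMod b.N) × (Fin n → ZMod b.N),
      (b.N * E₁) • ∑ g : M ≃ₐ[fieldG b F t x y γ.1 γ.2] M, KM.map m (g : M →+* M) ξ = 0 := by
    intro γ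
    by_cases hγ : ∀ h ∈ P, ∑ j, (γ.1 j * h.1 j + γ.2 j * h.2 j) = 0
    · rw [mul_nsmul', keyR γ (Or.inl hγ), nsmul_zero]
    · push Not at hγ
      obtain ⟨h', hh', hne⟩ := hγ
      obtain ⟨f, hf1, hf2, hf3, hf4, hf5⟩ := hP h' hh'
      have h1 := h.sum_irrelevant b hN ι ξ γ.1 γ.2 hf1 hf2 hf3 hf4 hf5 hne
      rw [mul_comm, mul_nsmul', ← h1, hXk]
  have hsum := h.sum_fieldG b hN ι ξ
  have h2 := congrArg (fun z => (b.N * E₁) • z) hsum
  beta_reduce at h2
  have hXk' : (b.N * E₁) • ∑ g : M ≃ₐ[fieldX b F t x] M, KM.map m (g : M →+* M) ξ = 0 := by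
    rw [mul_nsmul', hXk, nsmul_zero]
  rw [smul_comm, Finset.smul_sum, Finset.sum_eq_zero (fun γ _ => key γ), smul_zero, smul_add,
    smul_comm _ (b.N ^ (2 * n)), hXk', smul_zero, add_zero] at h2
  rw [mul_comm, mul_nsmul']
  exact h2.symm

end UnrG
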