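import Pool.Agent.Lib.MP_859dd5_ag.PQ.V13
import Pool.Agent.Lib.MP_859dd5_ag.Mg.G069
import Pool.Agent.Lib.MP_859dd5_ag.K.J2
import Pool.Agent.Lib.MP_859dd5_ag.K.I2
import Pool.Agent.Lib.MP_859dd5_ag.K.I5

/-!
# Varieties dominated by families of products of Fermat curves of prime degree, all primes
-/

namespace UnrG

universe u v w

open Polynomial Finset

private lemma V14_map_pow {m : ℕ} {L : Type u} [Field L] {q : ℕ} {σ : L →+* L} {η : KM m L}
    (h : KM.map m σ η = q • η) (s : ℕ) : KM.map m (σ ^ s) η = q ^ s • η := by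
  induction s with
  | zero =>
    rw [pow_zero, pow_zero, one_smul]
    exact congrArg (fun g : KM m L →ₐ[ZMod m] KM m L => g η) (KM.map_id (m := m) (K := L))
  | succ s ih =>
    have h1 : KM.map m (σ ^ (s + 1)) η = KM.map m (σ ^ s) (KM.map m σ η) := by
      rw [KM.map_map]
      rfl
    rw [h1, h, map_nsmul, ih, smul_smul, pow_succ, mul_comm]

private lemma V14_char {𝔽 : Type} [Field 𝔽] [Fintype 𝔽] {p c s : ℕ} (hp : p.Prime)
    (h : Fintype.card 𝔽 = (p ^ c) ^ s) : CharP 𝔽 p := by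
  obtain ⟨p', hc'⟩ := CharP.exists 𝔽
  obtain ⟨n', hp', hcard'⟩ := FiniteField.card 𝔽 p'
  have h1 : p' ∣ (p ^ c) ^ s := by
    rw [← h, hcard']
    exact dvd_pow_self p' n'.pos.ne'
  have h2 : p' ∣ p := hp'.dvd_of_dvd_pow (hp'.dvd_of_dvd_pow h1)
  have h3 : p' = p := (Nat.prime_dvd_prime_iff_eq hp' hp).1 h2
  rw [← h3]
  exact hc'

private lemma V14_pow_val {N : ℕ} [NeZero N] {F : Type u} [Field F] {z : F}
    (hz : z ^ N = 1) (c : ZMod N) (w : ℕ) : (z ^ w) ^ c.val = z ^ (w • c).val := by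
  rw [← pow_mul]
  have h1 : ((w * c.val : ℕ) : ZMod N) = ((w • c).val : ℕ) := by
    rw [Nat.cast_mul, ZMod.natCast_zmod_val, ZMod.natCast_zmod_val, nsmul_eq_mul]
  have h2 := (ZMod.natCast_eq_natCast_iff' _ _ _).1 h1
  rw [← Nat.div_add_mod (w * c.val) N, ← Nat.div_add_mod ((w • c).val) N, pow_add, pow_add,
    pow_mul, pow_mul, hz, one_pow, one_pow, h2]

/-- **Main theorem for families of products of Fermat curves**, all primes, over an arbitrary algebraic
extension `F` of `𝔽` which contains the extension of degree `s`. -/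
theorem main_family_ext (𝔽 : Type) [Field 𝔽] [Fintype 𝔽] (p : ℕ) [Fact p.Prime] [CharP 𝔽 p] (N : ℕ)
    (hN : N.Prime) (hp : N ≠ p) (n : ℕ) :
    ∃ E s : ℕ, 0 < E ∧ 0 < s ∧ ∀ (m : ℕ) (F K L : Type u) [Field F] [Field K] [Field L]
      [Algebra 𝔽 F] [Algebra.IsAlgebraic 𝔽 F] [Algebra F L] [Algebra K L]
      [FiniteDimensional K L] (ω : F) (_ : IsPrimitiveRoot ω (Fintype.card 𝔽 ^ s - 1)) (r : ℕ) (t : Fin r → L) (a b x y : Fin n → L)
      (_ : IsFermatFamily N (F := F) t a b x y)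
      (σ : L →+* L) (_ : ∀ c : F, σ (algebraMap F L c) = algebraMap F L c ^ Fintype.card 𝔽)
      (_ : ∀ i, σ (t i) = t i) (_ : ∀ j, σ (a j) = a j) (_ : ∀ j, σ (b j) = b j)
      (_ : ∀ j, σ (x j) = x j) (_ : ∀ j, σ (y j) = y j)
      (σK : K →+* K) (_ : ∀ z : K, σ (algebraMap K L z) = algebraMap K L (σK z))
      (ζ : F) (_ : IsPrimitiveRoot ζ N)
      (_ : ∀ B A : Fin n → ZMod N, IsNondegenerate B A →
        (¬ IsBalanced p B A ∨ ∀ i j, B i ≠ 0 → B j ≠ 0 → i = j) →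
        (∀ (g h : Fin n → ZMod N) (f : L →+* L),
          (∀ c : F, f (algebraMap F L c) = algebraMap F L c) → (∀ i, f (t i) = t i) →
          (∀ j, f (x j) = algebraMap F L ζ ^ (g j).val * x j) →
          (∀ j, f (y j) = algebraMap F L ζ ^ (h j).val * y j) →
          (∀ z : K, f (algebraMap K L z) = algebraMap K L z) →
            ∑ j, (B j * g j + A j * h j) = 0) →
        ∃ β ∈ IntermediateField.adjoin F (Set.range t),
          ∏ j, (a j ^ (B j).val * b j ^ (A j).val) = β ^ N)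
      (ξ : MK m K) (_ : MK.Unr ξ) (_ : ξ ∈ MK.deg m K 3)
      (_ : MK.map m σK ξ = Fintype.card 𝔽 • ξ), (E * Module.finrank K L) • ξ = 0 := by
  obtain ⟨e, hp', hcard0⟩ := FiniteField.card 𝔽 p
  have hq : (Fintype.card 𝔽).Coprime N := by
    rw [hcard0]
    exact Nat.Coprime.pow_left _ ((Nat.coprime_primes hp' hN).2 hp.symm)
  obtain ⟨s, 𝔽', _, _, bs, hs, rfl, hcard, hsum⟩ := exists_base_extension 𝔽 hN.two_le hq
  have hchar : CharP 𝔽' p := V14_char (c := e) (s := s) hp' (by rw [hcard, hcard0])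
  obtain ⟨E₀, S, hE₀, hS, hE⟩ := family_reduced_all.{u} bs hN (p := p) n
  refine ⟨2 * E₀, s * S, by positivity, Nat.mul_pos hs hS, ?_⟩
  intro m F K L _ _ _ _ _ _ _ _ ω hω r t a b x y hX σ hσ hσt hσa hσb hσx hσy σK hσK ζ hζ hH ξ hξ hd
    hσξ
  have hN0 : NeZero bs.N := ⟨bs.N_pos.ne'⟩
  have hFchar : CharP F p := charP_of_injective_algebraMap (algebraMap 𝔽 F).injective p
  have hQ1 : 1 < Fintype.card 𝔽 ^ (s * S) :=
    Nat.one_lt_pow (Nat.mul_pos hs hS).ne' Fintype.one_lt_card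
  have hFS : FixSp F p S := by
    refine FixSp.of_dvd F (S := (e : ℕ) * (s * S)) hp' (Nat.mul_pos e.pos (Nat.mul_pos hs hS))
      ⟨e * s, by ring⟩ ⟨ω, ?_⟩
    rw [pow_mul, ← hcard0]
    exact hω
  obtain ⟨ω', hω'⟩ : ∃ ω' : F, IsPrimitiveRoot ω' (Fintype.card 𝔽 ^ s - 1) := by
    have h1 : Fintype.card 𝔽 ^ s - 1 ∣ Fintype.card 𝔽 ^ (s * S) - 1 := by
      rw [pow_mul]
      simpa only [one_pow] using Nat.sub_dvd_pow_sub_pow (Fintype.card 𝔽 ^ s) 1 S
    obtain ⟨e, he⟩ := h1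
    exact ⟨ω ^ e, hω.pow (by omega) (by rw [he, mul_comm])⟩
  obtain ⟨ι⟩ := exists_embedding_of_root 𝔽 𝔽' hcard F ω' hω'
  have hbq : bs.q = Fintype.card 𝔽 ^ s := by rw [← bs.card_q, hcard]
  have hζ' := bs.hζ_map ι
  obtain ⟨u, _, hu, huζ⟩ := hζ'.isPrimitiveRoot_iff.1 hζ
  obtain ⟨η, hη⟩ : ∃ η, η = KM.map m (algebraMap K L) (MK.red m K ξ) := ⟨_, rfl⟩
  have hmap : KM.map m σ η = Fintype.card 𝔽 • η := by
    have h1 : σ.comp (algebraMap K L) = (algebraMap K L).comp σK := RingHom.ext hσK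
    rw [hη, KM.map_map, h1, ← KM.map_map, ← MK.red_map, hσξ, map_nsmul, map_nsmul]
  have hηu : Unr η := by rw [hη]; exact (MK.red_unr hξ).map _
  have hηd : η ∈ KM.deg m L 3 := by rw [hη]; exact KM.deg_map _ (MK.red_deg hd)
  have hres : E₀ • η = 0 := by
    refine hE m F L (exists_pow_eq_one_of_algebraic 𝔽 F) ι r t a b x y hX (σ ^ s)
      ⟨?_, fun i => sigma_pow_fix (hσt i) s, fun i => sigma_pow_fix (hσx i) s,
        fun i => sigma_pow_fix (hσy i) s⟩ (fun i => sigma_pow_fix (hσa i) s)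
      (fun i => sigma_pow_fix (hσb i) s) η hηu hηd ?_
      {γ | ∃ g h : Fin n → ZMod bs.N, γ = (u • g, u • h) ∧ ∃ f : L →+* L,
        (∀ c : F, f (algebraMap F L c) = algebraMap F L c) ∧ (∀ i, f (t i) = t i) ∧
        (∀ j, f (x j) = algebraMap F L ζ ^ (g j).val * x j) ∧
        (∀ j, f (y j) = algebraMap F L ζ ^ (h j).val * y j) ∧
        ∀ z : K, f (algebraMap K L z) = algebraMap K L z} ?_ ?_
    · intro c
      rw [sigma_pow_const hσ s c, hbq]
    · rw [V14_map_pow hmap s, hbq]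
    · rintro _ ⟨g, h, rfl, f, hf1, hf2, hf3, hf4, hf5⟩
      have hone : (algebraMap F L (ι bs.ζ)) ^ bs.N = 1 := by
        rw [← map_pow, hζ'.pow_eq_one, map_one]
      refine ⟨f, hf1, hf2, ?_, ?_, ?_⟩
      · intro j
        rw [hf3, ← huζ, map_pow, V14_pow_val hone (g j) u]
        rfl
      · intro j
        rw [hf4, ← huζ, map_pow, V14_pow_val hone (h j) u]
        rfl
      · have h1 : f.comp (algebraMap K L) = algebraMap K L := RingHom.ext hf5
        rw [hη, KM.map_map, h1]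
    · intro B A hnd hb hP
      obtain ⟨β, hβ, hβN⟩ := hH B A hnd hb (by
        intro g h f hf1 hf2 hf3 hf4 hf5
        have h1 := hP (u • g, u • h) ⟨g, h, rfl, f, hf1, hf2, hf3, hf4, hf5⟩
        have h2 : ∑ j, (B j * (u • g) j + A j * (u • h) j) =
            (u : ZMod bs.N) * ∑ j, (B j * g j + A j * h j) := by
          rw [Finset.mul_sum]
          refine Finset.sum_congr rfl fun j _ => ?_
          rw [Pi.smul_apply, Pi.smul_apply, nsmul_eq_mul, nsmul_eq_mul]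
          ring
        rw [h2] at h1
        have h3 : IsUnit (u : ZMod bs.N) := (ZMod.isUnit_iff_coprime u bs.N).2 hu
        exact (h3.mul_right_eq_zero).1 h1)
      have hσβ : (σ ^ s) β = β := by
        refine sigma_pow_root bs.N_pos hζ' hσ ?_ hsum
        rw [← hβN, map_prod]
        refine Finset.prod_congr rfl fun j _ => ?_
        rw [map_mul, map_pow, map_pow, hσa, hσb]
      refine ⟨β⁻¹, inv_mem hβ, by rw [map_inv₀, hσβ], ?_⟩
      unfold famD
      rw [hβN, inv_pow]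
  have h2 : Module.finrank K L • (E₀ • MK.red m K ξ) = 0 := by
    refine finrank_smul_eq_zero (any m) _ (K := K) (L := L) rfl ?_
    rw [map_nsmul, ← hη, hres]
  have h3 : (2 * E₀) * Module.finrank K L = 2 * (Module.finrank K L * E₀) := by ring
  rw [h3, mul_smul]
  refine MK.two_smul_eq_zero ?_
  rw [mul_smul, map_nsmul, map_nsmul, h2]

end UnrG
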